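import Pool.Agent.Run7.h853.Hk.Fn

/-!
# Coniveau one on the varieties dominated by powers of a variety whose holomorphic forms are the
polynomials in one form
-/

open CategoryTheory AlgebraicGeometry

universe u

namespace Pool.Agent.Results.MP_1c689d_ag.CalabiYauConiveau

open Pool.Agent.H914 Pool.Agent.H914.VarClass Pool.Agent.H914.VarClass.Obj
open Pool.Agent.Y121.AHS Pool.Agent.W437.CY
open Run7.h853.Hk.D

variable {k : Type u} [Field k] {𝒱 : VarClass k} {ops : CycleOps 𝒱}

theorem result (T : HodgeTheory ops) {d N : ℕ} (hd : d ≠ 0) (X : 𝒱.Obj) (V : PolHS d N)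
    (hX : OfType T X V) :
    List.TFAE [∀ Y, Dominated T X Y → ∀ m, GHC T m Y, ∀ m, GHC T m (X.prod X),
      (∀ m, GHC T m X) ∧ GHC T (2 * d) (X.prod X)] :=
  main T hd X V hX

end Pool.Agent.Results.MP_1c689d_ag.CalabiYauConiveau
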