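import Pool.Agent.Run7.h853.Gn.Fn

/-!
# Sub-Hodge structures of given coniveau on the powers of a variety are generated by one power
-/

open CategoryTheory AlgebraicGeometry

universe u

namespace Pool.Agent.Results.MP_1c689d_ag.ConiveauOfPowers

open Pool.Agent.H914 Pool.Agent.H914.VarClass Pool.Agent.H914.VarClass.Obj
open Pool.Agent.Y121.AHS
open Run7.h853.Gn.D

variable {k : Type u} [Field k] {𝒱 : VarClass k} {ops : CycleOps 𝒱}

theorem result (T : HodgeTheory ops) (X : 𝒱.Obj) (hX : Effective T X) (c : ℕ) :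
    ∃ M, 0 < M ∧ ∀ P, PowerOf X M P →
      (∀ n Y, PowerOf X n Y → ∀ e ≤ c, ∀ x : T.W.H Y, InSub T e x →
        InSpan T.W.K (FromSub T e P) x) ∧
      ((∀ Y, Dominated T X Y → ∀ e ≤ c, GHC T e Y) ↔ ∀ e ≤ c, GHC T e P) :=
  main T X hX c

end Pool.Agent.Results.MP_1c689d_ag.ConiveauOfPowers
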