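import Mathlib
import Pool.Agent.Run7.h200.GH

/-!
# Group actions and the generalized Hodge conjecture

Let a finite group `G` act on a smooth projective complex variety `Y` of any dimension, and let
`c` and `m` be natural numbers. Cohomology, rational sub-Hodge structures of coniveau at least `c`
and the classes supported in codimension `c` are as in `Pool.Agent.Run7.h853.Gn.Defs`. For a subgroup `H` of
`G` let `J H` be the assertion that every class in `H^m(Y)^H = H^m(Y/H)` which lies in a rational
sub-Hodge structure of coniveau at least `c` is supported in codimension `c`: this is the generalized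
Hodge conjecture for the quotient `Y/H`. (For `c = 1` and `h^{m,0}(Y) = 0` all classes of
`H^m(Y)` lie in such a substructure, and `J 1` is the conclusion of Q1.)

(1) `J 1` is the conjecture for `Y`, and `J H` is inherited by bigger groups.

(2) `J H` follows from the conjecture for a variety `P` from which the classes invariant under `H`
come by correspondences, for example a resolution of singularities of `Y/H`.

(3) `Sieve`: let `K` be a commutative group of automorphisms, and `R_j` subgroups with
`J R_j`, for example because `Y/R_j` is a projective space. Then the conjecture for `Y` is equivalent to the assertions `J D` for the `D ⊆ K` for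
which `K/D` is cyclic and which contain no `R_j`.

(4) The conjecture for `Y` is equivalent to the assertions for all the quotients of a dominating family
of subgroups; for the quotients `Y/D` with `K/D` cyclic, `K` commutative; by the components of a
partition of a subgroup; for `Y/⟨g⟩` and `Y/[G, g]`, `g` an involution; for
`Y/⟨g⟩` if `g` is contained in a nonabelian simple subgroup; for `Y/A_k` if `A_n` acts and
`(k - 1) ^ 2 < n`; and for `Y/A_k` and the quotient by the even permutations preserving `k - 1`
classes, `2 ≤ k ≤ n` (`Criteria`).

(5) If the symmetric group `S_n` acts, `(k - 1) ^ 2 < n`: the conjecture holds for `Y` if and only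
if it holds for `Y/S_k` and for the classes which are alternating for `S_k`.

(6) If it is wrong for `Y`, but true for the quotients by the subgroups of prime order, then `G`
acts freely on the nonzero vectors of an irreducible representation which occurs in the classes in
question, outside of those which are supported in codimension `c`, the commutative subgroups and the
subgroups of order `p q` of `G` are cyclic, and `G` has at most one involution.
-/

set_option autoImplicit false

open CategoryTheory Equiv Pool.Agent.H914 Pool.Agent.H914.VarClass Pool.Agent.H914.VarClass.Obj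
  Pool.Agent.Y121.AHS Run7.h200.Van Run7.h200.Qr Run7.h200.GH
open Run7.h200.Pr (Criteria Sieve Mono)
open Run7.h853.Gn.D (Supp)

universe u

namespace Pool.Agent.Results.MP_1c689d_ag.GroupActions

/-- `J H`: the classes in a rational sub-Hodge structure of `H^m(Y)` of coniveau at least `c` which
are invariant under `H` are supported in codimension `c` (`actT T a` is the action of `G` on the
cohomology). -/
abbrev J {k : Type u} [Field k] {𝒱 : VarClass k} {ops : CycleOps 𝒱} (T : HodgeTheory ops)
    {Y : 𝒱.Obj} {G : Type} [Group G] (a : G →* Aut Y) (c m : ℕ) : Subgroup G → Prop :=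
  InvIn (actT T a) (InSubM T c m) (Supp T c)

/-- **Group actions and the generalized Hodge conjecture.** -/
theorem result {k : Type u} [Field k] {𝒱 : VarClass k} {ops : CycleOps 𝒱} (T : HodgeTheory ops)
    (Y : 𝒱.Obj) {G : Type} [Group G] [Finite G] (a : G →* Aut Y) (c m : ℕ) :
    ((J T a c m ⊥ ↔ GHCm T c m Y) ∧ Mono (J T a c m)) ∧
    (∀ (H : Subgroup G) (P : 𝒱.Obj), ComesFrom T a H P → GHCm T c m P → J T a c m H) ∧
    Sieve (J T a c m) ∧
    (∀ (H : Subgroup G) (ι : Type) (E : ι → Subgroup G),
      Dom (actT T a) (InSubM T c m) (Supp T c) H E → (∀ j, J T a c m (E j)) → J T a c m H) ∧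
    Criteria (J T a c m) ∧
    (∀ (n r : ℕ) (e : Perm (Fin n) →* G), 2 ≤ r → (r - 1) ^ 2 < n →
      (J T a c m ⊥ ↔ J T a c m ((symSub n r).map e) ∧
        AltIn (actT T a) (InSubM T c m) (Supp T c) e r)) ∧
    (¬ J T a c m ⊥ → (∀ D : Subgroup G, (Nat.card D).Prime → J T a c m D) →
      Fre (actT T a) (InSubM T c m) (Supp T c) ∧ CyclicSubgroups G) := by
  obtain ⟨m0, m0', m1, m2, m3, m4, m5⟩ := mainGH (T := T) a c m
  exact ⟨⟨m0, Run7.h200.Qr.mono⟩, m0', m3, m1, m2, m4, m5⟩

end Pool.Agent.Results.MP_1c689d_ag.GroupActions
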