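import Pool.Agent.Run7.h38.KL.Dom

/-!
# The generalised Hodge conjecture for varieties dominated by K3 surfaces related to abelian varieties

Let `X` be a projective K3 surface, or any variety of dimension `2 r` whose cohomology has the Hodge
numbers of type K3 and for which the Hodge conjecture is known, for instance a cubic fourfold. Let
`A` be a Kuga-Satake variety of `X`: an abelian variety with a Hodge class `κ` on `X × A × A` of
codimension `r + 1` which defines a Clifford multiplication of `H^1(A)` by the transcendental
lattice `T(X)`; Kuga and Satake construct `A` and `κ` for every `X`.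

**Theorem.** Suppose that

1. the class `κ` is algebraic (no condition on the endomorphisms of `T(X)`), or
2. `End T(X) = ℚ` (as for all K3 surfaces and cubic fourfolds outside a countable union of proper
   subfamilies of the moduli spaces of any given Picard number; any rank), and there is an
   algebraic cycle on `X × B`, where `B` is *any* abelian variety, which gives a nonzero map
   from `T(X)` to `H^2(B)` (or to `H^(2 dim B - 2)(B)`); for instance `X` is a K3 surface dominated by
   a product of curves or by an abelian variety.

Then the generalised Hodge conjecture holds, in all degrees and all coniveaux, for all varieties `Y`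
which are dominated by the powers of `X × A` (for instance by powers of `X`: the identity of `H(Y)` is
a sum of compositions `H(Y) → H((X × A)^m) → H(Y)` of correspondences given by cycles). In
particular, if `h^(i,0)(Y) = 0` then `H^i(Y, ℚ)` is supported on a divisor, which is the question
of the problem for `Y` (take `U = H^i(Y)`, `l = i - 2`, `j = 1` in the definition of
`GeneralizedHodge`; the space `U` is a Hodge substructure with types `(p, q)`, `p, q ≥ 1`). Examples of
such varieties `Y` with `h^(i,0) = 0` are the quotients of powers of `X` by groups for which the
holomorphic forms of degree `i` are not invariant.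

The proof. (a) In case 2 the class `κ` is algebraic, by the theorem of
`MP_6c2c38_ag.KugaSatakeAnyAbelianVariety`. (b) If `κ` is algebraic then the Hodge conjecture holds
for all varieties dominated by the powers of `X × A` (`Run7/h38/KF`). (c) The Hodge substructures of
level at most `l` of the cohomology of the products of copies of `X` and `A` come from `H^l(A^l)` by
Hodge classes (`Run7/h38/KH`, see `MP_90e98f_ag.KugaSatakeGHC`). The level is preserved by the
correspondences given by Hodge classes, so the same holds for the varieties `Y` dominated by the
powers of `X × A`; and the Hodge classes on `A^l × Y` are algebraic by (b).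
-/

open CategoryTheory AlgebraicGeometry

universe u

namespace Pool.Agent.Results.MP_1c689d_ag.KugaSatakeDominated

open Pool.Agent.H914 Pool.Agent.H914.VarClass Pool.Agent.H914.VarClass.Obj
  Pool.Agent.H914.WeilCohomology Pool.Agent.Y121.AHS Pool.Agent.N996.FP Run7.h38.KF Run7.h38.KI
  Run7.h38.KM

variable {k : Type u} [Field k] {𝒱 : VarClass k} {ops : CycleOps 𝒱}

/-- **The generalised Hodge conjecture for dominated varieties.** -/
theorem result (T : HodgeTheory ops) (X A : 𝒱.Obj) (r : ℕ) (φ : RForm T.W X)
    (hφ : IsPolarisation T X φ) (hX : OfK3Type T X φ r) (hHX : HodgeFor T X) (ψ : RForm T.W A)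
    (hψ : IsPolarisation T A ψ) (hA : OfAbelianType T A) (h0 : 0 < A.dim) (D : A.Cycles)
    (hD : GivenByDivisor T A ψ D) (κ : T.W.H ((X.prod A).prod A))
    (hκ : IsKugaSatake T X A r D κ) (hHA : HodgeIn T (A.prod A) 1) :
    (IsAlgebraic T ((X.prod A).prod A) (r + 1) κ →
      ∀ Y : 𝒱.Obj, FromPowers T.W (X.prod A) Y → GeneralizedHodge T Y) ∧
    ((∀ c, IsHodge T (X.prod X) (2 * r) c → IsScalar T X c) →
      ∀ (B : 𝒱.Obj) (ψB : RForm T.W B) (DB : B.Cycles) (j : ℕ) (z : (X.prod B).Cycles),
        IsPolarisation T B ψB → OfAbelianType T B → GivenByDivisor T B ψB DB →
        HodgeIn T (A.prod B) 1 → (X.prod B).IsCyc j z → j = r + 1 ∨ j + 1 = r + B.dim →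
        ¬ ActsAsZero T X B z →
        ∀ Y : 𝒱.Obj, FromPowers T.W (X.prod A) Y → GeneralizedHodge T Y) :=
  Run7.h38.KL.ghc_main hφ hX hψ hA h0 hD hκ hHX hHA

end Pool.Agent.Results.MP_1c689d_ag.KugaSatakeDominated
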